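import Pool.Agent.Lib.MP_dbcba7_co.Mo.Frac

/-! The fractional criterion with a weight depending on the size of each member. -/

namespace Pool.Agent.FS.LinearSpaces

open Finset Pool.Agent.Lib.MP_dbcba7_co.Mo

/-- the load factor of a member with `k` points -/
noncomputable def gw (k : ℕ) : ℝ := (2 ^ (k - 1) - 1) / ((k - 1 : ℕ) : ℝ)

theorem gw_nonneg (k : ℕ) : 0 ≤ gw k :=
  div_nonneg (sub_nonneg.2 (one_le_pow₀ (by norm_num))) (by positivity)

variable {α : Type*} [DecidableEq α]

theorem frac2 {F : Finset (Finset α)} (hF : ∀ A ∈ F, ∀ B ∈ F, A ∪ B ∈ F) (X : Finset α)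
    (μ : α → Finset α → ℝ) (h0 : ∀ x ∈ X, ∀ T, 0 ≤ μ x T)
    (hs : ∀ x ∈ X, ∀ T ∈ F, μ x T ≠ 0 → x ∈ T ∧ T ⊆ X)
    (h1 : ∀ x ∈ X, 1 ≤ ∑ T ∈ F, μ x T)
    (hy : ∀ x ∈ X, ∀ y, y ≠ x → ∑ T ∈ F.filter (fun T => y ∈ T), μ x T * gw T.card ≤ 1) :
    F.card * X.card ≤ 2 * ∑ S ∈ F, (S ∩ X).card := by
  classical
  set c : ℕ → ℝ := fun m => 1 / ((m - 1 : ℕ) : ℝ) with hc
  have hc0 : ∀ m, 0 ≤ c m := fun m => by positivity
  refine mean_of_le F X (flow hF X
    (fun x W _ => ∑ T ∈ F, μ x T * (if W ⊆ T then c W.card else 0)) ?_ ?_)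
  · intro S x hb
    simp only [blk, mem_filter, mem_product] at hb
    obtain ⟨⟨hS, hx⟩, hxS, hi⟩ := hb
    rw [sum_comm]
    refine (h1 x hx).trans (sum_le_sum (fun T hT => ?_))
    rw [← mul_sum]
    by_cases hz : μ x T = 0
    · simp [hz]
    refine le_mul_of_one_le_right (h0 x hx T) ?_
    obtain ⟨a, b⟩ := hs x hx T hT hz
    obtain ⟨W, hW, hm⟩ := exists_move hF hS hT a hxS
    have hne : (W.erase x).Nonempty := by
      by_contra h
      rw [not_nonempty_iff_eq_empty, erase_eq_empty_iff] at h
      have h2 := hm.2.2.2.1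
      rcases h with h | h
      · exact absurd (h ▸ hm.2.1) (notMem_empty x)
      · rw [h, union_comm, ← insert_eq] at h2
        exact hi h2
    have hpos : (0 : ℝ) < ((W.card - 1 : ℕ) : ℝ) := by
      rw [← card_erase_of_mem hm.2.1]
      exact_mod_cast card_pos.2 hne
    calc (1 : ℝ) = ∑ u ∈ ({W} : Finset (Finset α)) ×ˢ W.erase x,
          (if u.1 ⊆ T then c u.1.card else 0) := by
          rw [sum_product, sum_singleton]
          simp only [if_pos hW]
          rw [sum_const, card_erase_of_mem hm.2.1, nsmul_eq_mul, mul_one_div_cancel hpos.ne']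
      _ ≤ _ := by
          refine sum_le_sum_of_subset_of_nonneg (fun u hu => ?_)
            (fun u _ _ => by split_ifs; exacts [hc0 _, le_rfl])
          simp only [mem_product, mem_singleton, mem_erase] at hu
          simp only [mem_filter, mem_product, mem_powerset, hu.1]
          exact ⟨⟨hW.trans b, b (hW hu.2.2)⟩, hm, hu.2.2, hu.2.1⟩
  · intro y M h2 h3
    set Q := M.image Prod.fst with hQ
    have hyQ : y ∉ Q := by
      intro h
      obtain ⟨p, hp, e⟩ := mem_image.1 h
      exact (h2 p hp).2.2 e.symm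
    have hB : ∀ p ∈ M, insert y Q ⊆ p.2 := by
      intro p hp z hz
      rcases mem_insert.1 hz with rfl | hz
      · exact (h2 p hp).2.1
      · obtain ⟨q, hq, rfl⟩ := mem_image.1 hz
        exact h3 q hq p hp
    rw [← sum_fiberwise_of_maps_to (t := Q) (g := Prod.fst) (fun p hp => mem_image_of_mem _ hp)]
    rcases Q.eq_empty_or_nonempty with hQ0 | hQ0
    · rw [hQ0]; simp
    have hq : (0 : ℝ) < Q.card := by exact_mod_cast card_pos.2 hQ0
    have e2 : ∀ x ∈ Q, ∑ p ∈ M.filter (fun p => p.1 = x),
        ∑ T ∈ F, μ p.1 T * (if p.2 ⊆ T then c p.2.card else 0) ≤ 1 / (Q.card : ℝ) := by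
      intro x hx
      obtain ⟨p0, hp0, rfl⟩ := mem_image.1 hx
      have hx0 := (h2 p0 hp0).1
      have e3 : ∀ T ∈ F, ∑ p ∈ M.filter (fun p => p.1 = p0.1),
          μ p.1 T * (if p.2 ⊆ T then c p.2.card else 0) ≤
          (if y ∈ T then μ p0.1 T * gw T.card else 0) * (1 / (Q.card : ℝ)) := by
        intro T hT
        rw [sum_congr rfl (g := fun p => μ p0.1 T * (if p.2 ⊆ T then c p.2.card else 0))
          (fun p hp => by rw [(mem_filter.1 hp).2]), ← mul_sum, ← sum_filter]
        have hA : (0 : ℝ) ≤ 1 / (Q.card : ℝ) := by positivity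
        by_cases hz : μ p0.1 T = 0
        · simp [hz]
        by_cases hBT : insert y Q ⊆ T
        · rw [if_pos (hBT (mem_insert_self _ _)), mul_assoc]
          refine mul_le_mul_of_nonneg_left ?_ (h0 _ hx0 T)
          have hinj : Set.InjOn (Prod.snd : α × Finset α → Finset α)
              ((M.filter (fun p => p.1 = p0.1)).filter (fun p => p.2 ⊆ T) : Finset _) := by
            intro p hp q hq e
            rw [mem_coe, mem_filter, mem_filter] at hp hq
            exact Prod.ext (hp.1.2.trans hq.1.2.symm) e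
          have h4 := sum_between hc0 (insert y Q) T hBT
            (((M.filter (fun p => p.1 = p0.1)).filter (fun p => p.2 ⊆ T)).image Prod.snd) (by
              intro W hW
              obtain ⟨p, hp, rfl⟩ := mem_image.1 hW
              rw [mem_filter, mem_filter] at hp
              exact ⟨hB p hp.1.1, hp.2⟩)
          rw [sum_image hinj, card_insert_of_notMem hyQ] at h4
          have h5 := card_le_card hBT
          rw [card_insert_of_notMem hyQ] at h5
          have h7 := card_pos.2 hQ0
          have h8 := aa_bound (T.card - 1) Q.card (T.card - (Q.card + 1)) h7 (by omega)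
          have hn : (0 : ℝ) < ((T.card - 1 : ℕ) : ℝ) := by
            exact_mod_cast (by omega : 0 < T.card - 1)
          refine h4.trans ?_
          have hg : gw T.card * (1 / (Q.card : ℝ))
              = (2 ^ (T.card - 1) - 1) / (((T.card - 1 : ℕ) : ℝ) * Q.card) := by
            unfold gw
            field_simp
          rw [hg, le_div_iff₀ (by positivity)]
          refine le_trans (le_of_eq ?_) h8
          rw [mul_comm, mul_assoc, aa]
          congr 2
          refine sum_congr rfl (fun j _ => ?_)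
          simp only [hc]
          rw [show Q.card + 1 + j - 1 = Q.card + j by omega]
        · rw [filter_eq_empty_iff.2 (fun p hp h => hBT ((hB p (mem_filter.1 hp).1).trans h)),
            sum_empty, mul_zero]
          refine mul_nonneg ?_ hA
          split_ifs
          exacts [mul_nonneg (h0 _ hx0 T) (gw_nonneg _), le_rfl]
      rw [sum_comm]
      refine (sum_le_sum e3).trans ?_
      rw [← sum_mul, ← sum_filter]
      have h9 := hy _ hx0 y (h2 p0 hp0).2.2
      exact mul_le_of_le_one_left (by positivity) h9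
    refine (sum_le_sum e2).trans ?_
    rw [sum_const, nsmul_eq_mul, mul_one_div_cancel hq.ne']

end Pool.Agent.FS.LinearSpaces
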