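import Pool.Agent.FS.LinearSpaces.Bad
import Pool.Agent.FS.LinearSpaces.Sized

/-! The two directions of the threshold for partial linear spaces. -/

namespace Pool.Agent.FS.LinearSpaces

open Finset

variable {α : Type*} [DecidableEq α] {X : Finset α} {L : Finset (Finset α)} {s : ℝ}

theorem den_pos {k : ℕ} (hk : 2 ≤ k) : (0 : ℝ) < 2 ^ (k - 1) - 1 :=
  sub_pos.2 (one_lt_pow₀ (by norm_num) (by omega))

theorem weighted (hL : ∀ T ∈ L, T ⊆ X ∧ 2 ≤ T.card)
    (hlin : ∀ T ∈ L, ∀ T' ∈ L, T ≠ T' → (T ∩ T').card ≤ 1)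
    (n : α → ℕ) (Q : ℕ) (hn : ∀ x ∈ X, n x * (bad X L x).card = Q) {z : α} (hz : z ∈ X)
    (hs : ∑ T ∈ L.filter (fun T => z ∈ T), ((T.card : ℝ) - 1) / (2 ^ (T.card - 1) - 1) = s) :
    ((∑ x ∈ X, (n x : ℤ) * ∑ S ∈ good X L x, sg z S : ℤ) : ℝ) ≤ - (Q * (1 - s)) := by
  rw [← add_sum_erase X _ hz, sum_good_self hz, Int.cast_add, Int.cast_sum]
  have h1 : (((n z : ℤ) * - ((bad X L z).card : ℤ) : ℤ) : ℝ) = - (Q : ℝ) := by
    rw [← hn z hz]; push_cast; ring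
  have h2 : ∑ x ∈ X.erase z, (((n x : ℤ) * ∑ S ∈ good X L x, sg z S : ℤ) : ℝ)
      ≤ ∑ x ∈ X.erase z, ∑ T ∈ L.filter (fun T => z ∈ T),
        (if x ∈ T then (Q : ℝ) / (2 ^ (T.card - 1) - 1) else 0) := by
    refine sum_le_sum (fun x hx => ?_)
    obtain ⟨hxz, hxX⟩ := mem_erase.1 hx
    have h3 := sum_good_le (L := L) (x := x) hz
    have h4 : (n x : ℤ) * ∑ S ∈ good X L x, sg z S
        ≤ (n x : ℤ) * ((edge X L x z).card : ℤ) := by gcongr
    have h5 : (((n x : ℤ) * ∑ S ∈ good X L x, sg z S : ℤ) : ℝ)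
        ≤ (n x : ℝ) * ((edge X L x z).card : ℝ) := by exact_mod_cast h4
    refine h5.trans ?_
    have hnn : ∀ T ∈ L.filter (fun T => z ∈ T),
        (0 : ℝ) ≤ (if x ∈ T then (Q : ℝ) / (2 ^ (T.card - 1) - 1) else 0) := by
      intro T hT
      have := den_pos (hL T (mem_filter.1 hT).1).2
      split_ifs
      · positivity
      · exact le_rfl
    rcases (edge X L x z).eq_empty_or_nonempty with h0 | ⟨S0, hS0⟩
    · rw [h0, card_empty, Nat.cast_zero, mul_zero]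
      exact sum_nonneg hnn
    obtain ⟨T, hT, hxT, hzT, -⟩ := edge_line hz hS0
    refine le_trans ?_ (single_le_sum hnn (mem_filter.2 ⟨hT, hzT⟩))
    rw [if_pos hxT, le_div_iff₀ (den_pos (hL T hT).2), ← hn x hxX]
    have h6 := edge_card hL hlin hz (Ne.symm hxz) hT hxT hzT
    have h7 : ((edge X L x z).card : ℝ) * (2 ^ (T.card - 1) - 1) ≤ ((bad X L x).card : ℝ) := by
      have h8 : (((edge X L x z).card * (2 ^ (T.card - 1) - 1) : ℕ) : ℝ)
          ≤ ((bad X L x).card : ℝ) := by exact_mod_cast h6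
      rwa [Nat.cast_mul, Nat.cast_sub Nat.one_le_two_pow, Nat.cast_pow, Nat.cast_ofNat,
        Nat.cast_one] at h8
    rw [Nat.cast_mul, mul_assoc]
    gcongr
  have h7 : ∑ x ∈ X.erase z, ∑ T ∈ L.filter (fun T => z ∈ T),
        (if x ∈ T then (Q : ℝ) / (2 ^ (T.card - 1) - 1) else 0) = Q * s := by
    rw [sum_comm, ← hs, mul_sum]
    refine sum_congr rfl (fun T hT => ?_)
    obtain ⟨hTL, hzT⟩ := mem_filter.1 hT
    have e : (X.erase z).filter (fun x => x ∈ T) = T.erase z := by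
      ext a
      simp only [mem_filter, mem_erase]
      exact ⟨fun h => ⟨h.1.1, h.2⟩, fun h => ⟨⟨h.1, (hL T hTL).1 h.2⟩, h.2⟩⟩
    have h2T := (hL T hTL).2
    rw [← sum_filter, sum_const, e, card_erase_of_mem hzT, nsmul_eq_mul,
      Nat.cast_sub (by omega), Nat.cast_one]
    ring
  rw [h1]
  linarith

theorem not_fc [Infinite α] (hX : X.Nonempty) (hL : ∀ T ∈ L, T ⊆ X ∧ 2 ≤ T.card)
    (hlin : ∀ T ∈ L, ∀ T' ∈ L, T ≠ T' → (T ∩ T').card ≤ 1)
    (hs : ∀ x ∈ X,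
      ∑ T ∈ L.filter (fun T => x ∈ T), ((T.card : ℝ) - 1) / (2 ^ (T.card - 1) - 1) = s)
    (hlt : s < 1) :
    ∃ F : Finset (Finset α), (∀ A ∈ F, ∀ B ∈ F, A ∪ B ∈ F) ∧ L ⊆ F ∧
      ∀ z ∈ X, 2 * (F.filter (fun S => z ∈ S)).card < F.card := by
  classical
  have hd : 0 < 1 - s := by linarith
  obtain ⟨N0, hN0⟩ := exists_nat_gt ((2 : ℝ) ^ X.card / (1 - s))
  set N : ℕ := N0 + 2 with hN
  have hN1 : (2 : ℝ) ^ X.card < N * (1 - s) := by
    rw [div_lt_iff₀ hd] at hN0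
    have : (N0 : ℝ) ≤ N := by rw [hN]; push_cast; linarith
    exact hN0.trans_le (by gcongr)
  have hN2 : 2 ≤ N := by omega
  let n : α → ℕ := fun x => N * ∏ x' ∈ X.erase x, (bad X L x').card
  have hn : ∀ x ∈ X, n x * (bad X L x).card = N * ∏ x' ∈ X, (bad X L x').card := by
    intro x hx
    rw [← prod_erase_mul X _ hx, mul_assoc]
  have hP : 1 ≤ ∏ x' ∈ X, (bad X L x').card :=
    prod_pos (fun x hx => bad_pos hL hx)
  have hn2 : ∀ x, 2 ≤ n x := by
    intro x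
    have : 1 ≤ ∏ x' ∈ X.erase x, (bad X L x').card :=
      prod_pos (fun x' hx => bad_pos hL (mem_of_mem_erase hx))
    show 2 ≤ N * _
    nlinarith
  let ι := Σ x : X, Fin (n x)
  obtain ⟨x0, hx0⟩ := hX
  have : Nontrivial ι := ⟨⟨⟨⟨x0, hx0⟩, ⟨0, lt_of_lt_of_le (by norm_num) (hn2 x0)⟩⟩,
    ⟨⟨x0, hx0⟩, ⟨1, lt_of_lt_of_le (by norm_num) (hn2 x0)⟩⟩, fun h => by
      have := congrArg (fun i : ι => (i.2 : ℕ)) h
      simp at this⟩⟩
  have hinf : ((X : Set α)ᶜ).Infinite := X.finite_toSet.infinite_compl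
  let e := hinf.natEmbedding
  let y : ι → α := fun i => (e (Fintype.equivFin ι i) : α)
  have hy : Function.Injective y := fun i j h =>
    (Fintype.equivFin ι).injective (Fin.ext (e.injective (Subtype.ext h)))
  have hyX : ∀ i, y i ∉ X := fun i => (e (Fintype.equivFin ι i)).2
  obtain ⟨F, hF, hLF, hsum⟩ := glue X L (fun T hT => (hL T hT).1) y hy hyX
    (fun i => good X L i.1) (fun i S hS => (mem_good.1 hS).1)
    (fun i S hS S' hS' => good_union hS hS')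
    (fun i S hS T hT => good_union (line_good hT (hL T hT).1) hS)
  refine ⟨F, hF, hLF, fun z hz => ?_⟩
  have h1 := hsum z hz
  have h2 : ∑ i : ι, ∑ S ∈ good X L i.1, sg z S
      = ∑ x ∈ X, (n x : ℤ) * ∑ S ∈ good X L x, sg z S := by
    rw [Fintype.sum_sigma, ← sum_coe_sort X]
    refine sum_congr rfl (fun x _ => ?_)
    simp
  have h3 := weighted hL hlin n _ hn hz (hs z hz)
  rw [h2, sum_sg] at h1
  set D : ℤ := ∑ x ∈ X, (n x : ℤ) * ∑ S ∈ good X L x, sg z S with hD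
  have h4 : N ≤ N * ∏ x' ∈ X, (bad X L x').card := Nat.le_mul_of_pos_right _ hP
  have h6 : (N : ℝ) ≤ ((N * ∏ x' ∈ X, (bad X L x').card : ℕ) : ℝ) := by exact_mod_cast h4
  have h7 : (N : ℝ) * (1 - s) ≤ ((N * ∏ x' ∈ X, (bad X L x').card : ℕ) : ℝ) * (1 - s) := by
    gcongr
  have h8 : (D : ℝ) < - 2 ^ X.card := by linarith
  have h8' : D < - 2 ^ X.card := by exact_mod_cast h8
  have h9 : 2 * ((F.filter (fun S => z ∈ S)).card : ℤ) < F.card := by linarith
  exact_mod_cast h9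

theorem fc (hX : X.Nonempty) (hL : ∀ T ∈ L, T ⊆ X ∧ 2 ≤ T.card)
    (hlin : ∀ T ∈ L, ∀ T' ∈ L, T ≠ T' → (T ∩ T').card ≤ 1)
    (hs : ∀ x ∈ X,
      ∑ T ∈ L.filter (fun T => x ∈ T), ((T.card : ℝ) - 1) / (2 ^ (T.card - 1) - 1) = s)
    (hle : 1 ≤ s)
    (F : Finset (Finset α)) (hF : ∀ A ∈ F, ∀ B ∈ F, A ∪ B ∈ F) (hLF : L ⊆ F) :
    ∃ x ∈ X, F.card ≤ 2 * (F.filter (fun S => x ∈ S)).card := by
  classical
  refine Pool.Agent.Lib.MP_dbcba7_co.Mo.half_of_mean F X hX (frac2 hF X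
    (fun x T => if T ∈ L ∧ x ∈ T then ((T.card : ℝ) - 1) / (2 ^ (T.card - 1) - 1) else 0)
    ?_ ?_ ?_ ?_)
  · intro x _ T
    split_ifs with h
    · have h2 : (2 : ℝ) ≤ T.card := by exact_mod_cast (hL T h.1).2
      exact div_nonneg (by linarith) (den_pos (hL T h.1).2).le
    · exact le_rfl
  · intro x _ T _ h
    have h' : T ∈ L ∧ x ∈ T := by
      by_contra hc
      exact h (if_neg hc)
    exact ⟨h'.2, (hL T h'.1).1⟩
  · intro x hx
    have : F.filter (fun T => T ∈ L ∧ x ∈ T) = L.filter (fun T => x ∈ T) := by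
      ext T
      simp only [mem_filter]
      exact ⟨fun h => h.2, fun h => ⟨hLF h.1, h⟩⟩
    rw [← sum_filter, this, hs x hx]
    exact hle
  · intro x _ y hy
    have e : ∀ T ∈ F.filter (fun T => y ∈ T),
        (if T ∈ L ∧ x ∈ T then ((T.card : ℝ) - 1) / (2 ^ (T.card - 1) - 1) else 0) * gw T.card
          = if T ∈ L ∧ x ∈ T then 1 else 0 := by
      intro T _
      split_ifs with h
      · have h2 := (hL T h.1).2
        have h3 := den_pos h2
        have h4 : (2 : ℝ) ≤ T.card := by exact_mod_cast h2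
        have h5 : (0 : ℝ) < (T.card : ℝ) - 1 := by linarith
        unfold gw
        rw [Nat.cast_sub (by omega), Nat.cast_one]
        field_simp
      · exact zero_mul _
    rw [sum_congr rfl e, ← sum_filter, sum_const, nsmul_eq_mul, mul_one]
    have h1 : ((F.filter (fun T => y ∈ T)).filter (fun T => T ∈ L ∧ x ∈ T)).card ≤ 1 := by
      refine card_le_one.2 (fun T hT T' hT' => ?_)
      simp only [mem_filter] at hT hT'
      exact line_eq hlin hT.2.1 hT'.2.1 hy hT.2.2 hT.1.2 hT'.2.2 hT'.1.2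
    exact_mod_cast h1

end Pool.Agent.FS.LinearSpaces
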