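import Pool.Agent.FS.LinearSpaces.Glue

/-! The sets through `x` that contain no line through `x`, and the family of all other sets. -/

namespace Pool.Agent.FS.LinearSpaces

open Finset

variable {α : Type*} [DecidableEq α]

/-- subsets of `X` through `x` containing no member of `L` through `x` -/
def bad (X : Finset α) (L : Finset (Finset α)) (x : α) : Finset (Finset α) :=
  X.powerset.filter (fun S => x ∈ S ∧ ∀ T ∈ L, x ∈ T → ¬ T ⊆ S)

/-- the other subsets of `X` -/
def good (X : Finset α) (L : Finset (Finset α)) (x : α) : Finset (Finset α) :=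
  X.powerset.filter (fun S => ¬ (x ∈ S ∧ ∀ T ∈ L, x ∈ T → ¬ T ⊆ S))

variable {X : Finset α} {L : Finset (Finset α)} {x z : α}

theorem mem_bad {S : Finset α} :
    S ∈ bad X L x ↔ S ⊆ X ∧ x ∈ S ∧ ∀ T ∈ L, x ∈ T → ¬ T ⊆ S := by
  simp only [bad, mem_filter, mem_powerset]

theorem mem_good {S : Finset α} :
    S ∈ good X L x ↔ S ⊆ X ∧ (x ∈ S → ∃ T ∈ L, x ∈ T ∧ T ⊆ S) := by
  simp only [good, mem_filter, mem_powerset]
  refine and_congr_right (fun _ => ⟨fun h hx => ?_, fun h ⟨hx, h'⟩ => ?_⟩)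
  · by_contra hc
    exact h ⟨hx, fun T hT hxT hs => hc ⟨T, hT, hxT, hs⟩⟩
  · obtain ⟨T, hT, hxT, hs⟩ := h hx
    exact h' T hT hxT hs

theorem good_union {S S' : Finset α} (h : S ∈ good X L x) (h' : S' ∈ good X L x) :
    S ∪ S' ∈ good X L x := by
  rw [mem_good] at h h' ⊢
  refine ⟨union_subset h.1 h'.1, fun hx => ?_⟩
  rcases mem_union.1 hx with hx | hx
  · obtain ⟨T, hT, hxT, hs⟩ := h.2 hx
    exact ⟨T, hT, hxT, hs.trans subset_union_left⟩
  · obtain ⟨T, hT, hxT, hs⟩ := h'.2 hx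
    exact ⟨T, hT, hxT, hs.trans subset_union_right⟩

theorem line_good {T : Finset α} (hT : T ∈ L) (hX : T ⊆ X) : T ∈ good X L x :=
  mem_good.2 ⟨hX, fun hx => ⟨T, hT, hx, Subset.refl _⟩⟩

theorem sum_good (hz : z ∈ X) : ∑ S ∈ good X L x, sg z S = - ∑ S ∈ bad X L x, sg z S := by
  have h := sum_filter_add_sum_filter_not X.powerset
    (fun S => x ∈ S ∧ ∀ T ∈ L, x ∈ T → ¬ T ⊆ S) (sg z)
  rw [sum_sg_powerset hz] at h
  unfold good bad
  linarith

theorem sum_good_self (hx : x ∈ X) :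
    ∑ S ∈ good X L x, sg x S = - ((bad X L x).card : ℤ) := by
  rw [sum_good hx, sum_congr rfl (g := fun _ => (1 : ℤ))]
  · simp
  · intro S hS
    simp [sg, (mem_bad.1 hS).2.1]

/-- bad sets missing `z` that stop being bad when `z` is added -/
def edge (X : Finset α) (L : Finset (Finset α)) (x z : α) : Finset (Finset α) :=
  (bad X L x).filter (fun S => z ∉ S ∧ insert z S ∉ bad X L x)

theorem sum_good_le (hz : z ∈ X) :
    ∑ S ∈ good X L x, sg z S ≤ ((edge X L x z).card : ℤ) := by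
  rw [sum_good hz, sum_sg']
  have h1 := card_filter_add_card_filter_not (s := (bad X L x).filter (fun S => z ∉ S))
    (fun S => insert z S ∈ bad X L x)
  have h2 : (((bad X L x).filter (fun S => z ∉ S)).filter
      (fun S => ¬ insert z S ∈ bad X L x)) = edge X L x z := by
    rw [filter_filter]; rfl
  have h3 : (((bad X L x).filter (fun S => z ∉ S)).filter
      (fun S => insert z S ∈ bad X L x)).card ≤ ((bad X L x).filter (fun S => z ∈ S)).card := by
    refine card_le_card_of_injOn (fun S => insert z S) ?_ ?_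
    · intro S hS
      simp only [coe_filter, mem_filter, Set.mem_ofPred_eq] at hS ⊢
      exact ⟨hS.2, mem_insert_self _ _⟩
    · intro S hS S' hS' h
      simp only [coe_filter, mem_filter, Set.mem_ofPred_eq] at hS hS'
      have h : insert z S = insert z S' := h
      rw [← erase_insert hS.1.2, h, erase_insert hS'.1.2]
  rw [h2] at h1
  omega

theorem edge_line (hz : z ∈ X) {S : Finset α} (hS : S ∈ edge X L x z) :
    ∃ T ∈ L, x ∈ T ∧ z ∈ T ∧ T ⊆ insert z S := by
  obtain ⟨hb, hzS, hn⟩ := mem_filter.1 hS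
  rw [mem_bad] at hb hn
  by_contra hc
  refine hn ⟨insert_subset hz hb.1, mem_insert_of_mem hb.2.1, fun T hT hxT hs => ?_⟩
  by_cases hzT : z ∈ T
  · exact hc ⟨T, hT, hxT, hzT, hs⟩
  · exact hb.2.2 T hT hxT ((subset_insert_iff_of_notMem hzT).1 hs)

theorem line_eq (hlin : ∀ T ∈ L, ∀ T' ∈ L, T ≠ T' → (T ∩ T').card ≤ 1) {T T' : Finset α}
    (hT : T ∈ L) (hT' : T' ∈ L) (hne : z ≠ x) (h1 : x ∈ T) (h2 : z ∈ T) (h3 : x ∈ T')
    (h4 : z ∈ T') : T = T' := by
  by_contra h
  exact hne (card_le_one.1 (hlin T hT T' hT' h) z (mem_inter.2 ⟨h2, h4⟩) x (mem_inter.2 ⟨h1, h3⟩))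

theorem edge_card (hL : ∀ T ∈ L, T ⊆ X ∧ 2 ≤ T.card)
    (hlin : ∀ T ∈ L, ∀ T' ∈ L, T ≠ T' → (T ∩ T').card ≤ 1) (hz : z ∈ X) (hne : z ≠ x)
    {T : Finset α} (hT : T ∈ L) (hxT : x ∈ T) (hzT : z ∈ T) :
    (edge X L x z).card * (2 ^ (T.card - 1) - 1) ≤ (bad X L x).card := by
  have hsub : ∀ S ∈ edge X L x z, T ⊆ insert z S := by
    intro S hS
    obtain ⟨T', hT', hxT', hzT', hs⟩ := edge_line hz hS
    rw [line_eq hlin hT hT' hne hxT hzT hxT' hzT']
    exact hs
  have hc : ((T.erase x).powerset.erase (T.erase x)).card = 2 ^ (T.card - 1) - 1 := by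
    rw [card_erase_of_mem (mem_powerset_self _), card_powerset, card_erase_of_mem hxT]
  rw [← hc, ← card_product]
  refine card_le_card_of_injOn (fun p => (p.1 \ T.erase x) ∪ p.2) ?_ ?_
  · rintro ⟨S, W⟩ hp
    simp only [coe_product, Set.mem_prod, mem_coe, mem_erase, mem_powerset] at hp
    obtain ⟨hS, hW, hWs⟩ := hp
    have hb := mem_bad.1 (mem_filter.1 hS).1
    refine mem_coe.2 (mem_bad.2 ⟨?_, ?_, ?_⟩)
    · exact union_subset (sdiff_subset.trans hb.1)
        (hWs.trans ((erase_subset _ _).trans (hL T hT).1))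
    · exact mem_union_left _ (mem_sdiff.2 ⟨hb.2.1, notMem_erase _ _⟩)
    · intro T' hT' hxT' hs
      by_cases hTT : T' = T
      · subst hTT
        refine hW (Subset.antisymm hWs (fun a ha => ?_))
        rcases mem_union.1 (hs (mem_of_mem_erase ha)) with h | h
        · exact absurd ha (mem_sdiff.1 h).2
        · exact h
      · refine hb.2.2 T' hT' hxT' (fun a ha => ?_)
        rcases mem_union.1 (hs ha) with h | h
        · exact (mem_sdiff.1 h).1
        · have h' := mem_erase.1 (hWs h)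
          exact absurd (line_eq hlin hT' hT h'.1 hxT' ha hxT h'.2) hTT
  · rintro ⟨S, W⟩ hp ⟨S', W'⟩ hp' h
    simp only [coe_product, Set.mem_prod, mem_coe, mem_erase, mem_powerset] at hp hp'
    have h : (S \ T.erase x) ∪ W = (S' \ T.erase x) ∪ W' := h
    have hm : ∀ a, ((a ∈ S ∧ a ∉ T.erase x) ∨ a ∈ W) ↔ ((a ∈ S' ∧ a ∉ T.erase x) ∨ a ∈ W') :=
      fun a => by rw [← mem_sdiff, ← mem_sdiff, ← mem_union, ← mem_union, h]
    have hz1 : z ∉ S := (mem_filter.1 hp.1).2.1
    have hz2 : z ∉ S' := (mem_filter.1 hp'.1).2.1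
    refine Prod.ext ?_ ?_
    · ext a
      show a ∈ S ↔ a ∈ S'
      have h1 := hm a
      have h2 : a ∈ W → a ∈ T.erase x := fun h => hp.2.2 h
      have h3 : a ∈ W' → a ∈ T.erase x := fun h => hp'.2.2 h
      by_cases ha : a ∈ T.erase x
      · by_cases haz : a = z
        · rw [haz]; exact iff_of_false hz1 hz2
        · exact iff_of_true
            ((mem_insert.1 (hsub S hp.1 (mem_of_mem_erase ha))).resolve_left haz)
            ((mem_insert.1 (hsub S' hp'.1 (mem_of_mem_erase ha))).resolve_left haz)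
      · tauto
    · ext a
      show a ∈ W ↔ a ∈ W'
      have h1 := hm a
      have h2 : a ∈ W → a ∈ T.erase x := fun h => hp.2.2 h
      have h3 : a ∈ W' → a ∈ T.erase x := fun h => hp'.2.2 h
      tauto

theorem bad_pos (hL : ∀ T ∈ L, T ⊆ X ∧ 2 ≤ T.card) (hx : x ∈ X) :
    0 < (bad X L x).card := by
  refine card_pos.2 ⟨{x}, mem_bad.2 ⟨singleton_subset_iff.2 hx, mem_singleton_self _, ?_⟩⟩
  intro T hT _ hs
  have := card_le_card hs
  have h2 := (hL T hT).2
  rw [card_singleton] at this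
  omega

end Pool.Agent.FS.LinearSpaces
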