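import Mathlib

/-! Gluing finitely many families on `X` into one union-closed family, with a signed count. -/

namespace Pool.Agent.FS.LinearSpaces

open Finset

variable {α : Type*} [DecidableEq α]

/-- the sign of a point on a set -/
def sg (z : α) (S : Finset α) : ℤ := if z ∈ S then 1 else -1

theorem sg_le (z : α) (S : Finset α) : sg z S ≤ 1 := by
  unfold sg; split_ifs <;> norm_num

theorem sum_sg' (z : α) (F : Finset (Finset α)) :
    ∑ S ∈ F, sg z S = ((F.filter (fun S => z ∈ S)).card : ℤ)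
      - ((F.filter (fun S => z ∉ S)).card : ℤ) := by
  unfold sg
  rw [sum_ite, sum_const, sum_const]
  simp [sub_eq_add_neg]

theorem sum_sg (z : α) (F : Finset (Finset α)) :
    ∑ S ∈ F, sg z S = 2 * ((F.filter (fun S => z ∈ S)).card : ℤ) - F.card := by
  have h := card_filter_add_card_filter_not (s := F) (fun S => z ∈ S)
  rw [sum_sg', ← h]
  push_cast
  ring

theorem sum_sg_powerset {z : α} {X : Finset α} (hz : z ∈ X) :
    ∑ S ∈ X.powerset, sg z S = 0 := by
  rw [← insert_erase hz, sum_powerset_insert (notMem_erase z X), ← sum_add_distrib]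
  refine sum_eq_zero (fun S hS => ?_)
  have : z ∉ S := fun h => notMem_erase z X (mem_powerset.1 hS h)
  simp [sg, this]

theorem glue {ι : Type*} [Fintype ι] [DecidableEq ι] [Nontrivial ι] (X : Finset α)
    (L : Finset (Finset α)) (hL : ∀ T ∈ L, T ⊆ X)
    (y : ι → α) (hy : Function.Injective y) (hyX : ∀ i, y i ∉ X)
    (B : ι → Finset (Finset α)) (hBX : ∀ i, ∀ S ∈ B i, S ⊆ X)
    (hBu : ∀ i, ∀ S ∈ B i, ∀ S' ∈ B i, S ∪ S' ∈ B i)
    (hBL : ∀ i, ∀ S ∈ B i, ∀ T ∈ L, T ∪ S ∈ B i) :
    ∃ F : Finset (Finset α), (∀ A ∈ F, ∀ A' ∈ F, A ∪ A' ∈ F) ∧ L ⊆ F ∧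
      ∀ z ∈ X, ∑ S ∈ F, sg z S ≤ 2 ^ X.card + ∑ i, ∑ S ∈ B i, sg z S := by
  classical
  set Y : Finset α := univ.image y with hY
  have hyY : ∀ i, y i ∈ Y := fun i => mem_image_of_mem y (mem_univ i)
  have hYX : ∀ a ∈ Y, a ∉ X := by
    intro a ha
    obtain ⟨i, -, rfl⟩ := mem_image.1 ha
    exact hyX i
  let P : Finset α → Finset α → Prop := fun V S =>
    V = Y ∨ (V = ∅ ∧ ∀ i, ∀ S' ∈ B i, S ∪ S' ∈ B i) ∨ ∃ i, V = Y.erase (y i) ∧ S ∈ B i
  have hne : ∀ i, Y.erase (y i) ≠ ∅ := by
    intro i h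
    obtain ⟨j, hj⟩ := exists_ne i
    have : y j ∈ Y.erase (y i) := mem_erase.2 ⟨fun e => hj (hy e), hyY j⟩
    rw [h] at this
    exact notMem_empty _ this
  have hnY : ∀ i, Y.erase (y i) ≠ Y := by
    intro i h
    have := hyY i
    rw [← h] at this
    exact notMem_erase _ _ this
  have hinj : ∀ i j, Y.erase (y i) = Y.erase (y j) → i = j := by
    intro i j h
    by_contra hij
    have : y i ∈ Y.erase (y j) := mem_erase.2 ⟨fun e => hij (hy e), hyY i⟩
    rw [← h] at this
    exact notMem_erase _ _ this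
  have hP : ∀ V V' S S', V ⊆ Y → V' ⊆ Y → P V S → P V' S' → P (V ∪ V') (S ∪ S') := by
    intro V V' S S' hV hV' h h'
    rcases h with rfl | ⟨rfl, h⟩ | ⟨i, rfl, h⟩
    · exact Or.inl (union_eq_left.2 hV')
    · rcases h' with rfl | ⟨rfl, h'⟩ | ⟨j, rfl, h'⟩
      · exact Or.inl (empty_union _)
      · refine Or.inr (Or.inl ⟨empty_union _, fun i S'' hS'' => ?_⟩)
        rw [union_assoc]
        exact h i _ (h' i _ hS'')
      · exact Or.inr (Or.inr ⟨j, empty_union _, h j _ h'⟩)
    · rcases h' with rfl | ⟨rfl, h'⟩ | ⟨j, rfl, h'⟩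
      · exact Or.inl (union_eq_right.2 hV)
      · refine Or.inr (Or.inr ⟨i, union_empty _, ?_⟩)
        rw [union_comm]
        exact h' i _ h
      · by_cases hij : i = j
        · subst hij
          exact Or.inr (Or.inr ⟨i, union_self _, hBu i _ h _ h'⟩)
        · refine Or.inl (Subset.antisymm (union_subset hV hV') (fun a ha => ?_))
          by_cases hai : a = y i
          · exact mem_union_right _ (mem_erase.2 ⟨fun e => hij (hy (hai.symm.trans e)), ha⟩)
          · exact mem_union_left _ (mem_erase.2 ⟨hai, ha⟩)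
  refine ⟨((Y.powerset ×ˢ X.powerset).filter (fun p => P p.1 p.2)).image (fun p => p.2 ∪ p.1),
    ?_, ?_, ?_⟩
  · intro A hA A' hA'
    obtain ⟨⟨V, S⟩, hp, rfl⟩ := mem_image.1 hA
    obtain ⟨⟨V', S'⟩, hp', rfl⟩ := mem_image.1 hA'
    simp only [mem_filter, mem_product, mem_powerset] at hp hp'
    refine mem_image.2 ⟨(V ∪ V', S ∪ S'), ?_, ?_⟩
    · simp only [mem_filter, mem_product, mem_powerset]
      exact ⟨⟨union_subset hp.1.1 hp'.1.1, union_subset hp.1.2 hp'.1.2⟩,
        hP _ _ _ _ hp.1.1 hp'.1.1 hp.2 hp'.2⟩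
    · ext a
      simp only [mem_union]
      tauto
  · intro T hT
    refine mem_image.2 ⟨(∅, T), ?_, union_empty _⟩
    simp only [mem_filter, mem_product, mem_powerset]
    exact ⟨⟨empty_subset _, hL T hT⟩, Or.inr (Or.inl ⟨rfl, fun i S' hS' => hBL i _ hS' _ hT⟩)⟩
  · intro z hz
    rw [sum_image]
    swap
    · rintro ⟨V, S⟩ hp ⟨V', S'⟩ hp' h
      simp only [coe_filter, mem_product, mem_powerset, Set.mem_ofPred_eq] at hp hp'
      have h : S ∪ V = S' ∪ V' := h
      have hm : ∀ a, (a ∈ S ∨ a ∈ V) ↔ (a ∈ S' ∨ a ∈ V') := fun a => by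
        rw [← mem_union, ← mem_union, h]
      refine Prod.ext ?_ ?_
      · ext a
        have h1 := hm a
        have h2 : a ∈ V → a ∉ S' := fun h2 h3 => hYX a (hp.1.1 h2) (hp'.1.2 h3)
        have h3 : a ∈ V' → a ∉ S := fun h3 h4 => hYX a (hp'.1.1 h3) (hp.1.2 h4)
        show a ∈ V ↔ a ∈ V'
        tauto
      · ext a
        have h1 := hm a
        have h2 : a ∈ S → a ∉ V' := fun h2 h3 => hYX a (hp'.1.1 h3) (hp.1.2 h2)
        have h3 : a ∈ S' → a ∉ V := fun h3 h4 => hYX a (hp.1.1 h4) (hp'.1.2 h3)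
        show a ∈ S ↔ a ∈ S'
        tauto
    have e1 : ∑ p ∈ (Y.powerset ×ˢ X.powerset).filter (fun p => P p.1 p.2), sg z (p.2 ∪ p.1)
        = ∑ V ∈ Y.powerset, ∑ S ∈ X.powerset.filter (fun S => P V S), sg z S := by
      rw [sum_filter, sum_product]
      refine sum_congr rfl (fun V hV => ?_)
      rw [sum_filter]
      refine sum_congr rfl (fun S _ => ?_)
      have hzV : z ∉ V := fun h => hYX z (mem_powerset.1 hV h) hz
      have : sg z (S ∪ V) = sg z S := by simp [sg, hzV]
      simp only [this]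
    have e2 : ∀ V ∈ Y.powerset, ∑ S ∈ X.powerset.filter (fun S => P V S), sg z S ≤
        (if V = ∅ then (2 : ℤ) ^ X.card else 0)
          + ∑ i, (if V = Y.erase (y i) then ∑ S ∈ B i, sg z S else 0) := by
      intro V _
      by_cases h1 : V = Y
      · have : X.powerset.filter (fun S => P V S) = X.powerset :=
          filter_true_of_mem (fun S _ => Or.inl h1)
        rw [this, sum_sg_powerset hz, sum_eq_zero (fun i _ => if_neg (fun e => hnY i (e.symm.trans h1)))]
        split_ifs <;> positivity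
      by_cases h2 : V = ∅
      · rw [if_pos h2, sum_eq_zero (s := univ) (fun i _ => if_neg (fun e => hne i (e.symm.trans h2))), add_zero]
        calc ∑ S ∈ X.powerset.filter (fun S => P V S), sg z S
            ≤ ∑ S ∈ X.powerset.filter (fun S => P V S), (1 : ℤ) := sum_le_sum (fun S _ => sg_le z S)
          _ = ((X.powerset.filter (fun S => P V S)).card : ℤ) := by simp
          _ ≤ (X.powerset.card : ℤ) := by exact_mod_cast card_filter_le _ _
          _ = 2 ^ X.card := by rw [card_powerset]; push_cast; rfl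
      rw [if_neg h2, zero_add]
      by_cases h3 : ∃ i, V = Y.erase (y i)
      · obtain ⟨i, hi⟩ := h3
        have : X.powerset.filter (fun S => P V S) = B i := by
          ext S
          simp only [mem_filter, mem_powerset]
          constructor
          · rintro ⟨-, h | ⟨h, -⟩ | ⟨j, hj, h⟩⟩
            · exact absurd h h1
            · exact absurd h h2
            · rw [hinj i j (hi.symm.trans hj)]; exact h
          · intro h
            exact ⟨hBX i S h, Or.inr (Or.inr ⟨i, hi, h⟩)⟩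
        rw [this, sum_eq_single i (fun j _ hj => if_neg (fun e => hj (hinj j i (e.symm.trans hi))))
          (fun h => absurd (mem_univ i) h), if_pos hi]
      · have : X.powerset.filter (fun S => P V S) = ∅ := by
          refine filter_false_of_mem (fun S _ h => ?_)
          rcases h with h | ⟨h, -⟩ | ⟨j, hj, -⟩
          · exact h1 h
          · exact h2 h
          · exact h3 ⟨j, hj⟩
        rw [this, sum_empty, sum_eq_zero (fun i _ => if_neg (fun e => h3 ⟨i, e⟩))]
    rw [e1]
    refine (sum_le_sum e2).trans (le_of_eq ?_)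
    rw [sum_add_distrib, sum_comm, sum_ite_eq' Y.powerset ∅, if_pos (empty_mem_powerset Y)]
    congr 1
    refine sum_congr rfl (fun i _ => ?_)
    rw [sum_ite_eq' Y.powerset (Y.erase (y i)), if_pos (mem_powerset.2 (erase_subset _ _))]

end Pool.Agent.FS.LinearSpaces
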